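import Pool.Agent.X328.GN.Stm

/-!
# Project TAU, part INF2
-/

set_option autoImplicit false
set_option linter.unusedSectionVars false

namespace Pool.Agent.X288.TAU

open Finset Polynomial
open Pool.Agent.X328.GN (hm it)

universe u

section
variable {A B : Type*} [CommRing A] [CommRing B]

theorem hm_map (φ : A →+* B) (d : ℕ) (F P Q : A[X]) :
    (hm d F P Q).map φ = hm d (F.map φ) (P.map φ) (Q.map φ) := by
  unfold hm
  rw [Polynomial.map_sum]
  refine Finset.sum_congr rfl fun i _ => ?_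
  simp

theorem it2 (d : ℕ) (p q : A[X]) : it d p q 2 =
    (hm d p (hm d p X 1) (hm d q X 1), hm d q (hm d p X 1) (hm d q X 1)) := rfl

/-- the polynomial of the fixed points of the second iterate -/
noncomputable def W (d : ℕ) (p q : A[X]) : A[X] := (it d p q 2).1 - X * (it d p q 2).2

theorem W_map (φ : A →+* B) (d : ℕ) (p q : A[X]) :
    (W d p q).map φ = W d (p.map φ) (q.map φ) := by
  unfold W
  rw [it2, it2]
  simp only [Polynomial.map_sub, Polynomial.map_mul, map_X, hm_map, Polynomial.map_one]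

theorem hm_deg (d N : ℕ) (F P Q : A[X]) (hP : P.natDegree ≤ N) (hQ : Q.natDegree ≤ N) :
    (hm d F P Q).natDegree ≤ d * N := by
  unfold hm
  refine natDegree_sum_le_of_forall_le _ _ fun i hi => ?_
  have hi' : i ≤ d := Nat.lt_succ_iff.1 (Finset.mem_range.1 hi)
  have h1 : (P ^ i).natDegree ≤ i * N := natDegree_pow_le_of_le i hP
  have h2 : (Q ^ (d - i)).natDegree ≤ (d - i) * N := natDegree_pow_le_of_le (d - i) hQ
  have h3 : (C (F.coeff i) * P ^ i).natDegree ≤ i * N :=
    (natDegree_C_mul_le _ _).trans h1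
  have h4 := natDegree_mul_le_of_le h3 h2
  refine h4.trans ?_
  rw [← add_mul, Nat.add_sub_cancel' hi']

theorem W_deg (d : ℕ) (p q : A[X]) : (W d p q).natDegree ≤ d ^ 2 + 1 := by
  have hX : (X : A[X]).natDegree ≤ 1 := natDegree_X_le
  have h1 : (1 : A[X]).natDegree ≤ 1 := by rw [natDegree_one]; exact Nat.zero_le _
  have ha : (hm d p X 1 : A[X]).natDegree ≤ d := by
    have := hm_deg d 1 p X 1 hX h1
    rwa [mul_one] at this
  have hb : (hm d q X 1 : A[X]).natDegree ≤ d := by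
    have := hm_deg d 1 q X 1 hX h1
    rwa [mul_one] at this
  have h2 := hm_deg d d p _ _ ha hb
  have h3 := hm_deg d d q _ _ ha hb
  unfold W
  rw [it2, pow_two]
  refine (natDegree_sub_le _ _).trans (max_le (h2.trans (Nat.le_succ _)) ?_)
  have := natDegree_mul_le_of_le hX h3
  rw [add_comm] at this
  exact this

end

/-- the generic polynomials -/
noncomputable def gp (d : ℕ) : (MvPolynomial (Fin (d + 1) ⊕ Fin (d + 1)) ℤ)[X] :=
  ∑ i : Fin (d + 1), C (MvPolynomial.X (Sum.inl i)) * X ^ i.1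

noncomputable def gq (d : ℕ) : (MvPolynomial (Fin (d + 1) ⊕ Fin (d + 1)) ℤ)[X] :=
  ∑ i : Fin (d + 1), C (MvPolynomial.X (Sum.inr i)) * X ^ i.1

noncomputable def EE (d : ℕ) : MvPolynomial (Fin (d + 1) ⊕ Fin (d + 1)) ℤ :=
  (gp d - X * gq d).coeff (d + 1) * (W d (gp d) (gq d)).coeff (d ^ 2 + 1)

noncomputable def ev {K : Type*} [CommRing K] (d : ℕ) (p q : K[X]) :
    MvPolynomial (Fin (d + 1) ⊕ Fin (d + 1)) ℤ →+* K :=
  (MvPolynomial.aeval (Sum.elim (fun i : Fin (d + 1) => p.coeff i)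
      (fun i : Fin (d + 1) => q.coeff i))).toRingHom

theorem map_gp {K : Type*} [CommRing K] (d : ℕ) (p q : K[X]) (hp : p.natDegree ≤ d) :
    (gp d).map (ev d p q) = p := by
  unfold gp
  rw [Polynomial.map_sum]
  have h := p.as_sum_range_C_mul_X_pow' (n := d + 1) (Nat.lt_succ_of_le hp)
  conv_rhs => rw [h, Finset.sum_range]
  refine Finset.sum_congr rfl fun i _ => ?_
  rw [Polynomial.map_mul, map_C, Polynomial.map_pow, map_X]
  congr 2
  simp [ev]

theorem map_gq {K : Type*} [CommRing K] (d : ℕ) (p q : K[X]) (hq : q.natDegree ≤ d) :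
    (gq d).map (ev d p q) = q := by
  unfold gq
  rw [Polynomial.map_sum]
  have h := q.as_sum_range_C_mul_X_pow' (n := d + 1) (Nat.lt_succ_of_le hq)
  conv_rhs => rw [h, Finset.sum_range]
  refine Finset.sum_congr rfl fun i _ => ?_
  rw [Polynomial.map_mul, map_C, Polynomial.map_pow, map_X]
  congr 2
  simp [ev]

theorem ev_EE {K : Type*} [CommRing K] (d : ℕ) (p q : K[X]) (hp : p.natDegree ≤ d)
    (hq : q.natDegree ≤ d) :
    ev d p q (EE d) = (p - X * q).coeff (d + 1) * (W d p q).coeff (d ^ 2 + 1) := by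
  unfold EE
  rw [map_mul, ← coeff_map, ← coeff_map, W_map, Polynomial.map_sub, Polynomial.map_mul, map_X,
    map_gp d p q hp, map_gq d p q hq]

theorem EE_ne (d : ℕ) (hd : 2 ≤ d) : EE d ≠ 0 := by
  intro h
  have hq : (X ^ d + 1 : ℤ[X]).natDegree = d := by
    rw [← C_1]; exact natDegree_X_pow_add_C
  have h1 := ev_EE d (0 : ℤ[X]) (X ^ d + 1) (by simp) hq.le
  rw [h, map_zero] at h1
  have hm0 : ∀ P Q : ℤ[X], hm d 0 P Q = 0 := by
    intro P Q; unfold hm; simp
  have hq1 : (hm d (X ^ d + 1) X 1 : ℤ[X]) = X ^ d + 1 := by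
    unfold hm
    have h2 := (X ^ d + 1 : ℤ[X]).as_sum_range_C_mul_X_pow' (n := d + 1) (by omega)
    conv_rhs => rw [h2]
    refine Finset.sum_congr rfl fun i _ => ?_
    rw [one_pow, mul_one]
  have hq2 : hm d (X ^ d + 1) 0 (X ^ d + 1 : ℤ[X]) = (X ^ d + 1) ^ d := by
    unfold hm
    rw [Finset.sum_eq_single 0]
    · have : (X ^ d + 1 : ℤ[X]).coeff 0 = 1 := by
        rw [coeff_add, coeff_one_zero, coeff_X_pow, if_neg (by omega), zero_add]
      rw [this, C_1, pow_zero, one_mul, one_mul, Nat.sub_zero]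
    · intro i _ hi
      rw [zero_pow hi, mul_zero, zero_mul]
    · intro h0
      exact absurd (Finset.mem_range.2 (Nat.succ_pos d)) h0
  have hW : W d (0 : ℤ[X]) (X ^ d + 1) = -(X * (X ^ d + 1) ^ d) := by
    unfold W
    rw [it2, hm0, hm0, hq1, hq2, zero_sub]
  have hmon : (X ^ d + 1 : ℤ[X]).Monic := by
    rw [← C_1]; exact monic_X_pow_add_C 1 (by omega)
  have c1 : (0 - X * (X ^ d + 1) : ℤ[X]).coeff (d + 1) = -1 := by
    rw [zero_sub, coeff_neg, coeff_X_mul]
    have := hmon.coeff_natDegree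
    rw [hq] at this
    rw [this]
  have c2 : (W d (0 : ℤ[X]) (X ^ d + 1)).coeff (d ^ 2 + 1) = -1 := by
    rw [hW, coeff_neg, coeff_X_mul]
    have := (hmon.pow d).coeff_natDegree
    rw [hmon.natDegree_pow, hq, ← pow_two] at this
    rw [this]
  rw [c1, c2] at h1
  norm_num at h1

theorem t_INF2 : ∀ d : ℕ, 2 ≤ d → ∃ E : MvPolynomial (Fin (d + 1) ⊕ Fin (d + 1)) ℤ, E ≠ 0 ∧
  ∀ (K : Type u) [Field K] [CharZero K] (p q : K[X]), p.natDegree ≤ d → q.natDegree ≤ d →
    MvPolynomial.aeval (Sum.elim (fun i : Fin (d + 1) => p.coeff i)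
      (fun i : Fin (d + 1) => q.coeff i)) E ≠ 0 →
    (p - X * q).natDegree = d + 1 ∧
      ((it d p q 2).1 - X * (it d p q 2).2).natDegree = d ^ 2 + 1 := by
  intro d hd
  refine ⟨EE d, EE_ne d hd, ?_⟩
  intro K _ _ p q hp hq h
  have h1 : ev d p q (EE d) ≠ 0 := h
  rw [ev_EE d p q hp hq] at h1
  have hX : (X : K[X]).natDegree ≤ 1 := natDegree_X_le
  constructor
  · refine natDegree_eq_of_le_of_coeff_ne_zero ?_ (left_ne_zero_of_mul h1)
    refine (natDegree_sub_le _ _).trans (max_le (hp.trans (Nat.le_succ _)) ?_)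
    have := natDegree_mul_le_of_le hX hq
    rw [add_comm] at this
    exact this
  · exact natDegree_eq_of_le_of_coeff_ne_zero (W_deg d p q)
      (right_ne_zero_of_mul h1)

end Pool.Agent.X288.TAU
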